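import Pool.Agent.H18.XX.TB
import Pool.Agent.H17.XW.TJ
import Pool.Agent.H40.XP.FMY

/-!
# The exponential hierarchy in EQP: the oracle for finitely many requirements (row FMW)
-/

set_option autoImplicit false

namespace Pool.Agent.H13.XX

open Finset Pool.Agent.H70.OQ
open Pool.Agent.H70.EH hiding T_NUM
open Pool.Agent.H78.XQ hiding T_POW T_SUM
open Pool.Agent.H6.NB hiding sg T_NUM
open Pool.Agent.H70.EI hiding T_AST T_NU2
open Pool.Agent.H66.IP (Local ins sp dm IsZ scl mBp m0p)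
open Pool.Agent.H66.IQ
open Pool.Agent.H66.AV
open Pool.Agent.H18.XX
open Pool.Agent.H17.XW (Una T_UNA)
open Pool.Agent.H40.XP (fmy_za)

/-- The strings with `16 * length ≤ log ^ 2`. -/
def adw (n : ℕ) : Finset (List Bool) :=
  (range (Nat.log 2 n ^ 2 / 16 + 1)).biUnion fun i => univ.image fun f : Fin i → Bool => List.ofFn f

theorem mem_adw (n : ℕ) (a : List Bool) : a ∈ adw n ↔ 16 * a.length ≤ Nat.log 2 n ^ 2 := by
  unfold adw
  rw [mem_biUnion]
  constructor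
  · rintro ⟨i, hi, ha⟩
    rw [mem_image] at ha
    obtain ⟨f, -, rfl⟩ := ha
    rw [List.length_ofFn]
    rw [mem_range] at hi
    omega
  · intro ha
    refine ⟨a.length, ?_, ?_⟩
    · rw [mem_range]
      omega
    · rw [mem_image]
      exact ⟨a.get, mem_univ _, List.ofFn_get a⟩

theorem card_adw (n : ℕ) : (adw n).card ≤ 2 ^ (Nat.log 2 n ^ 2 / 16 + 1) := by
  unfold adw
  refine card_biUnion_le.trans ?_
  have h1 : ∀ i ∈ range (Nat.log 2 n ^ 2 / 16 + 1),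
      (univ.image fun f : Fin i → Bool => List.ofFn f).card ≤ 2 ^ i := by
    intro i _
    refine card_image_le.trans (le_of_eq ?_)
    simp
  refine (Finset.sum_le_sum h1).trans ?_
  have h2 := Nat.geomSum_lt (m := 2) (n := Nat.log 2 n ^ 2 / 16 + 1)
    (s := range (Nat.log 2 n ^ 2 / 16 + 1)) le_rfl fun k hk => mem_range.1 hk
  exact h2.le

/-- the number of the advice strings times the bound -/
theorem fw_one {n j : ℕ} (h : 2 ^ (j + 64) ≤ n) :
    ((adw n).card : ℝ) * (1 / 2) ^ (Nat.log 2 n ^ 2 / 8) ≤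
      8 * (1 / 2) ^ (j + 64) * (1 / (n : ℝ) ^ 2) := by
  have hn0 : n ≠ 0 := by
    have : 0 < 2 ^ (j + 64) := by positivity
    omega
  have hL : j + 64 ≤ Nat.log 2 n := (Nat.le_log_iff_pow_le (by norm_num) hn0).2 h
  have hn : n < 2 ^ (Nat.log 2 n + 1) := Nat.lt_pow_succ_log_self (by norm_num) n
  generalize hLL : Nat.log 2 n = L at *
  have h1 : ((adw n).card : ℝ) ≤ 2 ^ (L ^ 2 / 16 + 1) := by
    have := card_adw n
    rw [hLL] at this
    exact_mod_cast this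
  have h2 : (1 / 2 : ℝ) ^ (L ^ 2 / 8) ≤ (1 / 2) ^ (L ^ 2 / 16 + L ^ 2 / 16) :=
    pow_le_pow_of_le_one (by norm_num) (by norm_num) (by omega)
  have h3 : ((adw n).card : ℝ) * (1 / 2) ^ (L ^ 2 / 8) ≤ 2 * (1 / 2) ^ (L ^ 2 / 16) := by
    calc ((adw n).card : ℝ) * (1 / 2) ^ (L ^ 2 / 8) ≤
        2 ^ (L ^ 2 / 16 + 1) * (1 / 2) ^ (L ^ 2 / 16 + L ^ 2 / 16) :=
          mul_le_mul h1 h2 (by positivity) (by positivity)
      _ = 2 * (1 / 2) ^ (L ^ 2 / 16) := by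
          rw [pow_add (1 / 2 : ℝ), pow_succ]
          have h3 : (2 : ℝ) ^ (L ^ 2 / 16) * (1 / 2) ^ (L ^ 2 / 16) = 1 := by
            rw [← mul_pow]; norm_num
          linear_combination (2 * (1 / 2 : ℝ) ^ (L ^ 2 / 16)) * h3
  have h4 : 4 * L ≤ L ^ 2 / 16 := by
    rw [Nat.le_div_iff_mul_le (by norm_num)]
    have : 64 ≤ L := by omega
    nlinarith
  have h5 : (1 / 2 : ℝ) ^ (L ^ 2 / 16) ≤ (1 / 2) ^ (2 * L + (j + 64)) :=
    pow_le_pow_of_le_one (by norm_num) (by norm_num) (by omega)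
  have h6 : (1 / 2 : ℝ) ^ (2 * L) ≤ 4 * (1 / (n : ℝ) ^ 2) := by
    have hnr : (0 : ℝ) < n := by
      have : 0 < n := by omega
      exact_mod_cast this
    have hn2 : (n : ℝ) ≤ 2 ^ (L + 1) := by exact_mod_cast hn.le
    have hn3 : (n : ℝ) ^ 2 ≤ 4 * 2 ^ (2 * L) := by
      calc (n : ℝ) ^ 2 ≤ (2 ^ (L + 1)) ^ 2 := by gcongr
        _ = 4 * 2 ^ (2 * L) := by rw [pow_succ]; ring
    rw [one_div_pow, mul_one_div, div_le_div_iff₀ (by positivity) (by positivity)]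
    linarith
  calc ((adw n).card : ℝ) * (1 / 2) ^ (L ^ 2 / 8) ≤ 2 * (1 / 2) ^ (L ^ 2 / 16) := h3
    _ ≤ 2 * (1 / 2) ^ (2 * L + (j + 64)) := by gcongr
    _ = 2 * ((1 / 2) ^ (2 * L) * (1 / 2) ^ (j + 64)) := by rw [pow_add]
    _ ≤ 2 * ((4 * (1 / (n : ℝ) ^ 2)) * (1 / 2) ^ (j + 64)) := by gcongr
    _ = 8 * (1 / 2) ^ (j + 64) * (1 / (n : ℝ) ^ 2) := by ring

theorem fw_geo (M : ℕ) (N : ℕ → ℕ) (hN : ∀ j, 2 ^ (j + 64) ≤ N j) :
    ∑ j ∈ range M, ∑ n ∈ (range M).filter (fun n => N j ≤ n),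
      ((adw n).card : ℝ) * (1 / 2 : ℝ) ^ (Nat.log 2 n ^ 2 / 8) ≤ 1 / 10 := by
  have h1 : ∀ j ∈ range M, ∑ n ∈ (range M).filter (fun n => N j ≤ n),
      ((adw n).card : ℝ) * (1 / 2 : ℝ) ^ (Nat.log 2 n ^ 2 / 8) ≤ 16 / 2 ^ 64 * (1 / 2) ^ j := by
    intro j _
    have h2 : ∑ n ∈ (range M).filter (fun n => N j ≤ n),
        ((adw n).card : ℝ) * (1 / 2 : ℝ) ^ (Nat.log 2 n ^ 2 / 8) ≤
        ∑ n ∈ Ioo 0 M, 8 * (1 / 2 : ℝ) ^ (j + 64) * ((n : ℝ) ^ 2)⁻¹ := by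
      refine (Finset.sum_le_sum (g := fun n : ℕ =>
        8 * (1 / 2 : ℝ) ^ (j + 64) * ((n : ℝ) ^ 2)⁻¹) fun n hn => ?_).trans
        (Finset.sum_le_sum_of_subset_of_nonneg (fun n hn => ?_) fun n _ _ => by positivity)
      · rw [mem_filter] at hn
        rw [← one_div]
        exact fw_one ((hN j).trans hn.2)
      · rw [mem_filter, mem_range] at hn
        rw [mem_Ioo]
        have h3 : 0 < 2 ^ (j + 64) := by positivity
        exact ⟨lt_of_lt_of_le h3 ((hN j).trans hn.2), hn.1⟩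
    rw [← Finset.mul_sum] at h2
    have h3 : ∑ n ∈ Ioo 0 M, ((n : ℝ) ^ 2)⁻¹ ≤ 2 := by
      have := sum_Ioo_inv_sq_le (α := ℝ) 0 M
      norm_num at this ⊢
      exact this
    refine h2.trans ((mul_le_mul_of_nonneg_left h3 (by positivity)).trans (le_of_eq ?_))
    rw [pow_add]
    norm_num
    ring
  refine (Finset.sum_le_sum h1).trans ?_
  rw [← Finset.mul_sum]
  have h3 := sum_geometric_two_le M
  have h4 : (16 : ℝ) / 2 ^ 64 ≤ 1 / 100 := by norm_num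
  have h5 : (0 : ℝ) ≤ ∑ j ∈ range M, (1 / 2 : ℝ) ^ j := Finset.sum_nonneg fun _ _ => by positivity
  calc (16 : ℝ) / 2 ^ 64 * ∑ j ∈ range M, (1 / 2 : ℝ) ^ j
      ≤ 1 / 100 * 2 := mul_le_mul h4 h3 h5 (by norm_num)
    _ ≤ 1 / 10 := by norm_num

theorem fw_pt {α β : Type*} [Fintype α] [Fintype β] (w φ : α → β → ℝ) (hw : ∀ x y, 0 ≤ w x y)
    (h : ∑ x, ∑ y, w x y * φ x y < ∑ x, ∑ y, w x y) : ∃ x y, 0 < w x y ∧ φ x y < 1 := by
  by_contra hcon
  push Not at hcon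
  refine absurd h (not_lt.2 (Finset.sum_le_sum fun x _ => Finset.sum_le_sum fun y _ => ?_))
  rcases (hw x y).lt_or_eq with h2 | h2
  · have := hcon x y h2
    nlinarith
  · rw [← h2]; simp

theorem fw_swap {ι α β : Type*} [Fintype α] [Fintype β] (s : Finset ι) (w : α → β → ℝ)
    (f : ι → α → β → ℝ) :
    ∑ x, ∑ y, w x y * ∑ i ∈ s, f i x y = ∑ i ∈ s, ∑ x, ∑ y, w x y * f i x y := by
  have h1 : ∀ x, ∑ y, w x y * ∑ i ∈ s, f i x y = ∑ i ∈ s, ∑ y, w x y * f i x y := by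
    intro x
    simp_rw [Finset.mul_sum]
    exact Finset.sum_comm
  rw [Finset.sum_congr rfl fun x _ => h1 x]
  exact Finset.sum_comm

open Classical in
theorem pf_FMW (hSUZ : T_SUZ) (hHYZ : T_HYZ) (hALG : Pool.Agent.H66.AV.T_ALG)
    (hOVL : Pool.Agent.H66.AV.T_OVL) (hGZA : Pool.Agent.H66.AV.T_GZA)
    (hISZ : Pool.Agent.H66.IP.T_ISZ) (hSPF : Pool.Agent.H66.IP.T_SPF) (hUNA : T_UNA) : T_FMW := by
  intro V G hG
  choose n₀ h0 using hG
  choose n₁ hn₁ using fun j => hSUZ V (G j).1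
  have hS : ∀ (j n : ℕ) (a : List Bool)
      (_ : n₀ j + n₁ j ≤ n ∧ 16 * a.length ≤ Nat.log 2 n ^ 2), _ :=
    fun j n a h => hn₁ j n (by omega) ((G j).2 a) fun x => by
      have h2 := h0 j a (List.ofFn x) (by rw [List.length_ofFn]; omega)
        (by rw [List.length_ofFn]; exact h.2)
      rwa [List.length_ofFn] at h2
  choose A C hAC using hS
  refine ⟨fun j => max (n₀ j + n₁ j) (2 ^ (j + 64)), fun M => ?_⟩
  set N : ℕ → ℕ := fun j => max (n₀ j + n₁ j) (2 ^ (j + 64)) with hN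
  have hN1 : ∀ j, n₀ j + n₁ j ≤ N j := fun j => le_max_left _ _
  have hN2 : ∀ j, 2 ^ (j + 64) ≤ N j := fun j => le_max_right _ _
  obtain ⟨_, _, _, _, _, s6⟩ := hSPF (lx V)
  set E : Finset (ℕ × List Bool) := (s6 M).toFinset with hE
  have hmem : ∀ p, p ∈ E ↔ (sp (lx V) p).length ≤ M := by
    intro p
    rw [hE, Set.Finite.mem_toFinset]
    rfl
  obtain ⟨OO, hOO⟩ := hISZ (dm (lx V)) E
  set M' : ℕ := M + ∑ i ∈ range M, (G i).1 + 1 with hM'
  have hk : ∀ j, j < M → (G j).1 < M' := by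
    intro j hj
    have h1 : (G j).1 ≤ ∑ i ∈ range M, (G i).1 :=
      Finset.single_le_sum (f := fun i => (G i).1) (fun i _ => Nat.zero_le _) (mem_range.2 hj)
    omega
  have hn : ∀ n, n < M → n < M' := fun n hn => by omega
  -- the test functions
  let D₀ : List Bool → ℕ → ℕ → Za M' → (∀ p : {a // a ∈ E}, Cz V p.1) → ℝ := fun a j n z P =>
    if h : (n₀ j + n₁ j ≤ n ∧ 16 * a.length ≤ Nat.log 2 n ^ 2) ∧ j < M ∧ n < M then
      tst ((1 / 2) ^ (Nat.log 2 n ^ 2 / 16)) (A j n a h.1) (C j n a h.1)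
        (fun T => OO P (ovl n (G j).1 (gza M' z) T)) (z (⟨(G j).1, hk j h.2.1⟩, ⟨n, hn n h.2.2⟩))
    else 0
  have hD₀0 : ∀ a j n z P, 0 ≤ D₀ a j n z P := by
    intro a j n z P
    by_cases h : (n₀ j + n₁ j ≤ n ∧ 16 * a.length ≤ Nat.log 2 n ^ 2) ∧ j < M ∧ n < M
    · simp only [D₀, dif_pos h]
      exact ((hAC j n a h.1).1 _ _).1
    · simp only [D₀, dif_neg h]
      exact le_rfl
  let D : ℕ → ℕ → Za M' → (∀ p : {a // a ∈ E}, Cz V p.1) → ℝ := fun j n z P =>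
    ∑ a ∈ adw n, D₀ a j n z P
  have hD0 : ∀ j n z P, 0 ≤ D j n z P := fun j n z P =>
    Finset.sum_nonneg fun a _ => hD₀0 a j n z P
  have hD₀1 : ∀ a j n, ∑ z : Za M', ∑ P, wz V E OO (gza M' z) P * D₀ a j n z P ≤
      Fintype.card (Za M') * (1 / 2) ^ (Nat.log 2 n ^ 2 / 8) := by
    intro a j n
    by_cases h : (n₀ j + n₁ j ≤ n ∧ 16 * a.length ≤ Nat.log 2 n ^ 2) ∧ j < M ∧ n < M
    · simp only [D₀, dif_pos h]
      exact (hAC j n a h.1).2 M' (hk j h.2.1) (hn n h.2.2) E OO hOO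
    · simp only [D₀, dif_neg h, mul_zero, Finset.sum_const_zero]
      positivity
  have hD1 : ∀ j n, ∑ z : Za M', ∑ P, wz V E OO (gza M' z) P * D j n z P ≤
      Fintype.card (Za M') * (((adw n).card : ℝ) * (1 / 2) ^ (Nat.log 2 n ^ 2 / 8)) := by
    intro j n
    have e1 : ∑ z : Za M', ∑ P, wz V E OO (gza M' z) P * D j n z P =
        ∑ a ∈ adw n, ∑ z : Za M', ∑ P, wz V E OO (gza M' z) P * D₀ a j n z P :=
      fw_swap (adw n) (fun z P => wz V E OO (gza M' z) P) (fun a z P => D₀ a j n z P)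
    rw [e1]
    refine (Finset.sum_le_sum fun a _ => hD₀1 a j n).trans (le_of_eq ?_)
    rw [Finset.sum_const, nsmul_eq_mul]
    ring
  have hcard : (0 : ℝ) < Fintype.card (Za M') := by
    have := fmy_za M'
    exact_mod_cast Fintype.card_pos
  -- the weight and the tests
  let W : Za M' → (∀ p : {a // a ∈ E}, Cz V p.1) → ℝ := fun z P => wz V E OO (gza M' z) P
  let T2 : Za M' → (∀ p : {a // a ∈ E}, Cz V p.1) → ℝ :=
    fun z P => ∑ j ∈ range M, ∑ n ∈ (range M).filter (fun n => N j ≤ n), D j n z P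
  have hW0 : ∀ z P, 0 ≤ W z P := fun z P => ((hHYZ V E OO hOO (gza M' z)).1 P).1
  have hW : (Fintype.card (Za M') : ℝ) * (3 / 4) ≤ ∑ z, ∑ P, W z P := by
    have h2 : ∑ _z : Za M', (3 / 4 : ℝ) ≤ ∑ z : Za M', ∑ P, wz V E OO (gza M' z) P :=
      Finset.sum_le_sum fun z _ => (hHYZ V E OO hOO (gza M' z)).2.1
    refine le_trans (le_of_eq ?_) h2
    rw [Finset.sum_const, Finset.card_univ, nsmul_eq_mul]
  have hT : ∑ z, ∑ P, W z P * T2 z P ≤ (Fintype.card (Za M') : ℝ) * (1 / 10) := by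
    have e0 : ∑ z, ∑ P, W z P * T2 z P = ∑ j ∈ range M, ∑ z, ∑ P,
        W z P * ∑ n ∈ (range M).filter (fun n => N j ≤ n), D j n z P :=
      fw_swap (range M) W
        (fun j z P => ∑ n ∈ (range M).filter (fun n => N j ≤ n), D j n z P)
    rw [e0]
    have e2 : ∀ j ∈ range M, ∑ z, ∑ P,
        W z P * ∑ n ∈ (range M).filter (fun n => N j ≤ n), D j n z P ≤
        ∑ n ∈ (range M).filter (fun n => N j ≤ n),
          (Fintype.card (Za M') : ℝ) *
            (((adw n).card : ℝ) * (1 / 2) ^ (Nat.log 2 n ^ 2 / 8)) := by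
      intro j _
      have e1 : ∑ z, ∑ P, W z P * ∑ n ∈ (range M).filter (fun n => N j ≤ n), D j n z P =
          ∑ n ∈ (range M).filter (fun n => N j ≤ n), ∑ z, ∑ P, W z P * D j n z P :=
        fw_swap ((range M).filter (fun n => N j ≤ n)) W (fun n z P => D j n z P)
      rw [e1]
      exact Finset.sum_le_sum fun n _ => hD1 j n
    refine (Finset.sum_le_sum e2).trans ?_
    have e3 : ∑ j ∈ range M, ∑ n ∈ (range M).filter (fun n => N j ≤ n),
        (Fintype.card (Za M') : ℝ) *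
          (((adw n).card : ℝ) * (1 / 2) ^ (Nat.log 2 n ^ 2 / 8)) =
        Fintype.card (Za M') * ∑ j ∈ range M,
          ∑ n ∈ (range M).filter (fun n => N j ≤ n),
            ((adw n).card : ℝ) * (1 / 2 : ℝ) ^ (Nat.log 2 n ^ 2 / 8) := by
      rw [Finset.mul_sum]
      exact Finset.sum_congr rfl fun j _ => (Finset.mul_sum _ _ _).symm
    rw [e3]
    exact mul_le_mul_of_nonneg_left (fw_geo M N hN2) (by positivity)
  obtain ⟨z, P, hw, hy⟩ : ∃ z P, 0 < W z P ∧ T2 z P < 1 := by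
    refine fw_pt W T2 hW0 ?_
    linarith
  have hDz' : ∀ j n, j < M → n < M → N j ≤ n → D j n z P < 1 := by
    intro j n hj hn' hNn
    refine lt_of_le_of_lt ?_ hy
    have h1 : D j n z P ≤ ∑ n ∈ (range M).filter (fun n => N j ≤ n), D j n z P :=
      Finset.single_le_sum (f := fun n => D j n z P) (fun i _ => hD0 _ _ _ _)
        (mem_filter.2 ⟨mem_range.2 hn', hNn⟩)
    exact h1.trans (Finset.single_le_sum
      (f := fun j => ∑ n ∈ (range M).filter (fun n => N j ≤ n), D j n z P)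
      (fun i _ => Finset.sum_nonneg fun n _ => hD0 _ _ _ _) (mem_range.2 hj))
  have hfac : ∀ p : {a // a ∈ E}, mBp (lx V) p.1 (ax V (OO P (gza M' z)) p.1) (P p) ≠ 0 := by
    intro p h0
    refine hw.ne' ?_
    exact Finset.prod_eq_zero (Finset.mem_univ p) h0
  have hok : ∀ p : {a // a ∈ E},
      OkB (qs (sp (lx V) p.1)) (sp (lx V) p.1).length (rns (sp (lx V) p.1))
        (wln (sp (lx V) p.1)) (ax V (OO P (gza M' z)) p.1) (P p) := by
    intro p
    have h1 := hfac p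
    unfold mBp mB at h1
    by_contra h2
    rw [if_neg h2] at h1
    exact h1 rfl
  have hovz : ∀ t : Fin M' × Fin M', ovl t.2.1 t.1.1 (gza M' z) (tbl (z t)) = gza M' z := by
    intro t
    have h3 := hGZA M' z t (z t)
    rw [Function.update_eq_self] at h3
    exact h3.symm
  refine ⟨OO P (gza M' z), fun p hp => ?_, fun k n hkM hnM x => ?_,
    fun j hj n hn' hNn a ha => ?_⟩
  · have hpE : p ∈ E := (hmem p).2 hp
    unfold GoodZ
    have h5 : (cps (OO P (gza M' z)) (sp (lx V) p), cst (OO P (gza M' z)) (sp (lx V) p)) =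
        P ⟨p, hpE⟩ := Prod.ext (hOO.blk P _ p hpE) (hOO.cor P _ p hpE)
    rw [h5]
    exact hok ⟨p, hpE⟩
  · have hkM' : k < M' := by omega
    have hnM' : n < M' := by omega
    have h2 : ovl n k (gza M' z) (tbl (z (⟨k, hkM'⟩, ⟨n, hnM'⟩))) = gza M' z :=
      hovz (⟨k, hkM'⟩, ⟨n, hnM'⟩)
    refine hUNA n k (z (⟨k, hkM'⟩, ⟨n, hnM'⟩)) x _ fun q => ?_
    have h3 := ((hOVL n k (gza M' z)).2.2.2 (lx V) E OO hOO P).2
      (tbl (z (⟨k, hkM'⟩, ⟨n, hnM'⟩))) x q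
    rw [h2] at h3
    exact h3
  · have h : (n₀ j + n₁ j ≤ n ∧ 16 * a.length ≤ Nat.log 2 n ^ 2) ∧ j < M ∧ n < M :=
      ⟨⟨(hN1 j).trans hNn, ha⟩, hj, hn'⟩
    have h1 : D₀ a j n z P < 1 := lt_of_le_of_lt
      (Finset.single_le_sum (f := fun a => D₀ a j n z P) (fun a _ => hD₀0 a j n z P)
        ((mem_adw n a).2 ha)) (hDz' j n hj hn' hNn)
    simp only [D₀, dif_pos h] at h1
    set t : Fin M' × Fin M' := (⟨(G j).1, hk j h.2.1⟩, ⟨n, hn n h.2.2⟩) with ht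
    have h2 : ovl n (G j).1 (gza M' z) (tbl (z t)) = gza M' z := hovz t
    have h4 : ∀ x, List.ofFn x ∈ alang (G j).1
        ((fun T => OO P (ovl n (G j).1 (gza M' z) T)) (tbl (z t))) ↔ (z t x).1 = true := by
      intro x
      refine hALG.1 n (G j).1 (z t) x _ fun q => ?_
      exact ((hOVL n (G j).1 (gza M' z)).2.2.2 (lx V) E OO hOO P).2 (tbl (z t)) x q
    have h5 := ((hAC j n a h.1).1 (fun T => OO P (ovl n (G j).1 (gza M' z) T)) (z t)).2 h4 h1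
    rw [h2] at h5
    exact h5

end Pool.Agent.H13.XX
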