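import Pool.Agent.H18.XX.TA

/-!
# The exponential hierarchy in EQP: row NUR (estimates for the error terms)
-/

set_option autoImplicit false

namespace Pool.Agent.H13.XX

open Pool.Agent.H78.XQ Pool.Agent.H18.XX

theorem dd {x : ℝ} {a b c : ℕ} (hx : x ≤ 2 ^ a) (h : a + c ≤ b) : x / 2 ^ b ≤ 1 / 2 ^ c := by
  rw [div_le_div_iff₀ (by positivity) (by positivity), one_mul]
  calc x * 2 ^ c ≤ 2 ^ a * 2 ^ c := by gcongr
    _ = 2 ^ (a + c) := by rw [pow_add]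
    _ ≤ 2 ^ b := pow_le_pow_right₀ (by norm_num) h

theorem lt2 (r : ℕ) : r + 1 ≤ 2 ^ r := Nat.lt_two_pow_self

theorem poly1 {r : ℕ} (hr : 20 ≤ r) : 26 * r ^ 2 + 14 * r + 200 ≤ 3 * r ^ 3 := by
  have h1 : 20 * r ≤ r ^ 2 := by nlinarith
  have h2 : 20 * r ^ 2 ≤ r ^ 3 := by
    have : r ^ 3 = r * r ^ 2 := by ring
    rw [this]; exact Nat.mul_le_mul_right _ hr
  omega

theorem exq {x : ℝ} {a : ℕ} (hx : (a : ℝ) ≤ x) : Real.exp (-x) ≤ 1 / 2 ^ a := by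
  have h1 : Real.exp (-x) ≤ Real.exp (-(a : ℝ)) := Real.exp_le_exp.mpr (by linarith)
  have h2 : Real.exp (-(a : ℝ)) = 1 / Real.exp 1 ^ a := by
    rw [Real.exp_neg, ← Real.exp_nat_mul, mul_one, one_div]
  have h3 : (2 : ℝ) ≤ Real.exp 1 := by
    have := Real.add_one_le_exp (1 : ℝ); linarith
  rw [h2] at h1
  refine h1.trans ?_
  gcongr

theorem rle {r l q R n : ℕ} (h : Sz r l q R n) : R ≤ 2 ^ (29 + 9 * r) := by
  have h1 := h.l_ge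
  have h2 := h.l_le
  have h3 := h.r_ge
  have hl : 103 ≤ l := by
    have : 20 ^ 3 ≤ r ^ 3 := Nat.pow_le_pow_left h3 3
    omega
  have hq : q + 3 ≤ 16 * l := by have := h.q_eq; omega
  have hl3 : l ≤ 2 ^ (4 + 3 * r) := by
    calc l ≤ 16 * (r + 1) ^ 3 := h2
      _ ≤ 16 * (2 ^ r) ^ 3 := by gcongr; exact lt2 r
      _ = 2 ^ (4 + 3 * r) := by rw [pow_add, ← pow_mul, mul_comm r 3]; norm_num
  calc R = 512 * (q + 3) ^ 2 * l := h.R_eq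
    _ ≤ 512 * (16 * l) ^ 2 * l := by gcongr
    _ = 2 ^ 17 * l ^ 3 := by ring
    _ ≤ 2 ^ 17 * (2 ^ (4 + 3 * r)) ^ 3 := by gcongr
    _ = 2 ^ (29 + 9 * r) := by rw [← pow_mul, ← pow_add]; congr 1; ring

theorem nge {r l q R n : ℕ} (h : Sz r l q R n) : 1 ≤ R ∧ 30 * l ≤ n := by
  have h1 := h.l_ge
  have h3 := h.r_ge
  have hl : 1 ≤ l := by
    have : 20 ^ 3 ≤ r ^ 3 := Nat.pow_le_pow_left h3 3
    omega
  have hR : 1 ≤ R := by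
    rw [h.R_eq]
    exact Nat.mul_pos (Nat.mul_pos (by norm_num) (by positivity)) hl
  refine ⟨hR, ?_⟩
  rw [h.n_eq]
  calc 30 * l ≤ 1 * (2 * l + 3 * q) := by have := h.q_eq; omega
    _ ≤ R * (2 * l + 3 * q) := Nat.mul_le_mul_right _ hR

theorem nur : T_NUR := by
  intro r l q R n hS w S L e₁ ε₂ hw hSS hL he hε
  have hr := hS.r_ge
  have hl1 := hS.l_ge
  have hl2 := hS.l_le
  have hq := hS.q_eq
  have hp1 := poly1 hr
  obtain ⟨hR1, hn⟩ := nge hS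
  have hRR := rle hS
  have hr2 : 20 * r ≤ r ^ 2 := by nlinarith
  have hr3 : 20 * r ^ 2 ≤ r ^ 3 := by
    have : r ^ 3 = r * r ^ 2 := by ring
    rw [this]; exact Nat.mul_le_mul_right _ hr
  -- the numbers
  have hw' : w = 2 ^ (2 * r ^ 2) := by
    rw [hw]; push_cast
    rw [show (4 : ℝ) = 2 ^ 2 by norm_num, ← pow_mul]
  have h128 : 128 * w = 2 ^ (2 * r ^ 2 + 7) := by
    rw [hw', pow_add]; norm_num; ring
  have hM : ∀ k : ℕ, (128 * w) ^ k = 2 ^ ((2 * r ^ 2 + 7) * k) := fun k => by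
    rw [h128, ← pow_mul]
  have hb : (bd r : ℝ) = 2 ^ (2 * (r ^ 2 - r)) := by unfold bd; push_cast; rfl
  have hbn : bd r = 2 ^ (2 * (r ^ 2 - r)) := rfl
  have hb0 : (0 : ℝ) ≤ bd r := by positivity
  have hble : (bd r : ℝ) ≤ 2 ^ (2 * r ^ 2) := by
    rw [hb]; exact pow_le_pow_right₀ (by norm_num) (by omega)
  have hb1 : (bd r : ℝ) + 1 ≤ 2 ^ (2 * r ^ 2 + 1) := by
    have : (1 : ℝ) ≤ 2 ^ (2 * r ^ 2) := one_le_pow₀ (by norm_num)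
    rw [pow_succ]; linarith
  have hw0 : 0 < w := by rw [hw']; positivity
  have hK : (4003 * (bd r : ℝ) ^ 2 * (bd r + 1) * w ^ 2) ≤ 2 ^ (13 + 10 * r ^ 2) := by
    calc (4003 * (bd r : ℝ) ^ 2 * (bd r + 1) * w ^ 2)
        ≤ 2 ^ 12 * (2 ^ (2 * r ^ 2)) ^ 2 * 2 ^ (2 * r ^ 2 + 1) * (2 ^ (2 * r ^ 2)) ^ 2 := by
          rw [hw']
          gcongr
          norm_num
      _ = 2 ^ (13 + 10 * r ^ 2) := by
          rw [← pow_mul, ← pow_add, ← pow_add, ← pow_add]; congr 1; ring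
  have hMK : (128 * w) ^ (2 * (r + 4)) * (4003 * (bd r : ℝ) ^ 2 * (bd r + 1) * w ^ 2) ≤
      2 ^ (4 * r ^ 3 + 26 * r ^ 2 + 14 * r + 69) := by
    rw [hM]
    calc (2 : ℝ) ^ ((2 * r ^ 2 + 7) * (2 * (r + 4))) *
          (4003 * (bd r : ℝ) ^ 2 * (bd r + 1) * w ^ 2)
        ≤ 2 ^ ((2 * r ^ 2 + 7) * (2 * (r + 4))) * 2 ^ (13 + 10 * r ^ 2) := by gcongr
      _ = 2 ^ (4 * r ^ 3 + 26 * r ^ 2 + 14 * r + 69) := by
          rw [← pow_add]; congr 1; ring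
  have hq4 : 2 * l + 8 * r ^ 3 + 25 ≤ q / 4 := by omega
  have c1 : (128 * w) ^ (2 * (r + 4)) * (4000 * (bd r : ℝ) ^ 2 * (bd r + 1) * w ^ 2) ≤
      2 ^ (q / 4) := by
    refine le_trans ?_ (hMK.trans (pow_le_pow_right₀ (by norm_num) (by omega)))
    gcongr
    norm_num
  have he' : 2 ^ (2 * l) * e₁ ≤ 1 / 2 ^ (r ^ 3 + 3) := by
    rw [he]
    have e1 : (2 : ℝ) ^ (2 * l) * ((128 * w) ^ (2 * (r + 4)) *
        (4003 * (bd r : ℝ) ^ 2 * (bd r + 1) * w ^ 2 / 2 ^ (q / 4))) =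
        (2 ^ (2 * l) * ((128 * w) ^ (2 * (r + 4)) *
          (4003 * (bd r : ℝ) ^ 2 * (bd r + 1) * w ^ 2))) / 2 ^ (q / 4) := by ring
    rw [e1]
    refine dd (a := 2 * l + (4 * r ^ 3 + 26 * r ^ 2 + 14 * r + 69)) ?_ (by omega)
    rw [pow_add]
    gcongr
  have h3 : 3 * (2 ^ (2 * l) * e₁) ≤ 1 / 2 ^ (r ^ 3 + 1) := by
    have : (1 : ℝ) / 2 ^ (r ^ 3 + 3) = 1 / 2 ^ (r ^ 3 + 1) / 4 := by
      rw [pow_add, pow_add]; field_simp; norm_num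
    have h0 : (0 : ℝ) ≤ 1 / 2 ^ (r ^ 3 + 1) := by positivity
    rw [this] at he'
    linarith
  -- the second error
  have hLe : L = 2 ^ ((2 * r ^ 2 + 7) * (r + 4)) := by rw [hL, hM]
  have hexp : (2 * r ^ 2 + 7) * (r + 4) = 2 * r ^ 3 + 8 * r ^ 2 + 7 * r + 28 := by ring
  have hw2 : 1000 * w ^ 2 ≤ 2 ^ (10 + 4 * r ^ 2) := by
    rw [hw', ← pow_mul, pow_add]
    have : 2 * r ^ 2 * 2 = 4 * r ^ 2 := by ring
    rw [this]
    gcongr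
    norm_num
  have hRl : (R : ℝ) ≤ 2 ^ (29 + 9 * r) := by exact_mod_cast hRR
  have t1 : 1000 * w ^ 2 * (R / 2 ^ l * L) ≤ 1 / 2 ^ (r ^ 3 + 5) := by
    have e1 : 1000 * w ^ 2 * (R / 2 ^ l * L) = (1000 * w ^ 2 * (R * L)) / 2 ^ l := by ring
    rw [e1]
    refine dd (a := 10 + 4 * r ^ 2 + ((29 + 9 * r) + (2 * r ^ 2 + 7) * (r + 4))) ?_ ?_
    · rw [hLe, pow_add (2 : ℝ) (10 + 4 * r ^ 2), pow_add (2 : ℝ) (29 + 9 * r)]
      gcongr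
    · rw [hexp]; omega
  have t2 : 1000 * w ^ 2 * √(2 * L / 2 ^ n) ≤ 1 / 2 ^ (r ^ 3 + 5) := by
    have s1 : √(2 * L / 2 ^ n) ≤ 1 / 2 ^ (r ^ 3 + 5 + (10 + 4 * r ^ 2)) := by
      apply Real.sqrt_le_iff.mpr
      refine ⟨by positivity, ?_⟩
      rw [div_pow, one_pow, ← pow_mul]
      refine dd (a := 1 + (2 * r ^ 2 + 7) * (r + 4)) ?_ ?_
      · rw [hLe, pow_add (2 : ℝ) 1]; simp
      · rw [hexp]; omega
    calc 1000 * w ^ 2 * √(2 * L / 2 ^ n)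
        ≤ 2 ^ (10 + 4 * r ^ 2) * (1 / 2 ^ (r ^ 3 + 5 + (10 + 4 * r ^ 2))) := by gcongr
      _ = 1 / 2 ^ (r ^ 3 + 5) := by
          rw [pow_add (2 : ℝ) (r ^ 3 + 5)]; field_simp
  have t3 : 1000 * w ^ 2 * (L / 2 ^ n) ≤ 1 / 2 ^ (r ^ 3 + 5) := by
    have e1 : 1000 * w ^ 2 * (L / 2 ^ n) = (1000 * w ^ 2 * L) / 2 ^ n := by ring
    rw [e1]
    refine dd (a := 10 + 4 * r ^ 2 + (2 * r ^ 2 + 7) * (r + 4)) ?_ ?_
    · rw [hLe, pow_add (2 : ℝ) (10 + 4 * r ^ 2)]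
      gcongr
    · rw [hexp]; omega
  have h4 : ε₂ ≤ 1 / 2 ^ (r ^ 3 + 3) := by
    have e1 : ε₂ = 1000 * w ^ 2 * (R / 2 ^ l * L) + 1000 * w ^ 2 * √(2 * L / 2 ^ n) +
        1000 * w ^ 2 * (L / 2 ^ n) := by rw [hε]; ring
    have e2 : (1 : ℝ) / 2 ^ (r ^ 3 + 3) = 4 * (1 / 2 ^ (r ^ 3 + 5)) := by
      rw [pow_add, pow_add]; field_simp; norm_num
    have h0 : (0 : ℝ) ≤ 1 / 2 ^ (r ^ 3 + 5) := by positivity
    rw [e1, e2]; linarith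
  have hone : ∀ k : ℕ, (1 : ℝ) / 2 ^ k ≤ 1 := fun k => by
    rw [div_le_one (by positivity)]; exact one_le_pow₀ (by norm_num)
  refine ⟨c1, h3.trans (hone _), h4.trans (hone _), ?_, ?_⟩
  · have e1 : (1 : ℝ) / 2 ^ (r ^ 3 + 1) = (1 / 2) ^ r ^ 3 / 2 := by
      rw [one_div_pow, pow_add]; field_simp
    have e2 : (1 : ℝ) / 2 ^ (r ^ 3 + 3) = (1 / 2) ^ r ^ 3 / 8 := by
      rw [one_div_pow, pow_add]; field_simp; norm_num
    have h0 : (0 : ℝ) ≤ (1 / 2) ^ r ^ 3 := by positivity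
    rw [e1] at h3
    rw [e2] at h4
    linarith
  · -- the additive errors
    obtain ⟨T, hT⟩ : ∃ T : ℕ, T = 2 ^ (r + 3) := ⟨_, rfl⟩
    obtain ⟨b, hbd⟩ : ∃ b : ℕ, b = bd r := ⟨_, rfl⟩
    obtain ⟨W, hW⟩ : ∃ W : ℕ, W = 4 ^ r ^ 2 := ⟨_, rfl⟩
    have hlr : r + 100 ≤ l := by
      have : r ^ 3 = r * r ^ 2 := by ring
      omega
    have hr1 : r + 1 ≤ 2 ^ (3 * r) := (lt2 r).trans (Nat.pow_le_pow_right (by norm_num) (by omega))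
    have hrc : (r + 1) ^ 3 ≤ 2 ^ (3 * r) := by
      calc (r + 1) ^ 3 ≤ (2 ^ r) ^ 3 := Nat.pow_le_pow_left (lt2 r) 3
        _ = 2 ^ (3 * r) := by rw [← pow_mul, mul_comm]
    have hTr : T ≤ 8 * 2 ^ (3 * r) := by
      rw [hT, pow_add, mul_comm]
      exact Nat.mul_le_mul (by norm_num) (Nat.pow_le_pow_right (by norm_num) (by omega))
    have hpoly : (2 * r ^ 2 + 7) * (2 * (r + 4)) ≤ 56 * 2 ^ (3 * r) := by
      calc (2 * r ^ 2 + 7) * (2 * (r + 4)) ≤ 56 * (r + 1) ^ 3 := by nlinarith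
        _ ≤ 56 * 2 ^ (3 * r) := Nat.mul_le_mul_left _ hrc
    have f0 : 2 ^ 10 * 2 ^ (3 * r) ≤ b := by
      rw [hbd, hbn, ← pow_add]
      exact Nat.pow_le_pow_right (by norm_num) (by omega)
    have f1 : 2 * l + 2 * q + (2 * r ^ 2 + 7) * (2 * (r + 4)) + r + T + 50 ≤ b := by
      omega
    have f2 : b * (r + 6) ≤ W := by
      have e1 : W = b * 4 ^ r := by
        rw [hW, hbd, hbn, show (4 : ℕ) = 2 ^ 2 by norm_num, ← pow_mul, ← pow_mul, ← pow_add]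
        congr 1; omega
      rw [e1]
      refine Nat.mul_le_mul_left _ ?_
      calc r + 6 ≤ 2 ^ r * 2 ^ r := by nlinarith [lt2 r]
        _ = 4 ^ r := by rw [← mul_pow]; norm_num
    have f3 : b * (r + 6) = (b + 1) * (r + 4) + b + b - (r + 4) := by
      have : (b + 1) * (r + 4) + b + b = b * (r + 6) + (r + 4) := by ring
      omega
    have f4 : r + 4 ≤ (b + 1) * (r + 4) := Nat.le_mul_of_pos_left _ (by omega)
    have hS1 : S + 1 ≤ 2 ^ (b + 1) := by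
      rw [hSS, ← hbd]; push_cast
      have : (1 : ℝ) ≤ 2 ^ b := one_le_pow₀ (by norm_num)
      rw [pow_succ]; linarith
    have hS0 : 0 ≤ S := by rw [hSS]; positivity
    have hS2 : (S + 1) ^ (r + 4) ≤ 2 ^ ((b + 1) * (r + 4)) := by
      rw [pow_mul]
      exact pow_le_pow_left₀ (by linarith) hS1 _
    rw [← hbd, ← hT, ← hW]
    have pA : 8 * (2 ^ (2 * l) * (4 * ((128 * w) ^ (2 * (r + 4)) *
        ((2 * 2 ^ q) ^ 2 * 2 ^ b * (S + 1) ^ (r + 4) / 2 ^ W)))) ≤ 1 / 2 ^ (T + 3) := by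
      have e1 : 8 * (2 ^ (2 * l) * (4 * ((128 * w) ^ (2 * (r + 4)) *
        ((2 * 2 ^ q) ^ 2 * 2 ^ b * (S + 1) ^ (r + 4) / 2 ^ W)))) =
        (2 ^ 5 * (2 ^ (2 * l) * ((128 * w) ^ (2 * (r + 4)) *
        ((2 ^ (1 + q)) ^ 2 * (2 ^ b * (S + 1) ^ (r + 4)))))) / 2 ^ W := by
        rw [pow_add (2 : ℝ) 1 q]; ring
      rw [e1]
      refine dd (a := 5 + (2 * l + ((2 * r ^ 2 + 7) * (2 * (r + 4)) +
        ((1 + q) * 2 + (b + (b + 1) * (r + 4)))))) ?_ (by omega)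
      rw [pow_add (2 : ℝ) 5, pow_add (2 : ℝ) (2 * l),
        pow_add (2 : ℝ) ((2 * r ^ 2 + 7) * (2 * (r + 4))), pow_add (2 : ℝ) ((1 + q) * 2),
        pow_add (2 : ℝ) b, hM, pow_mul (2 : ℝ) (1 + q) 2]
      gcongr
    have pB : 8 * (2 ^ (2 * l) * (4 * (1 / 2 ^ 2 ^ (q - 2)))) ≤ (1 : ℝ) / 2 ^ (T + 3) := by
      have e1 : 8 * (2 ^ (2 * l) * (4 * (1 / 2 ^ 2 ^ (q - 2)))) =
        ((2 : ℝ) ^ (5 + 2 * l)) / 2 ^ 2 ^ (q - 2) := by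
        rw [pow_add (2 : ℝ) 5]; ring
      rw [e1]
      refine dd le_rfl ?_
      have g1 : T ≤ 2 ^ (l + 4) := by
        rw [hT]; exact Nat.pow_le_pow_right (by norm_num) (by omega)
      have g2 : 2 * l + 8 ≤ 2 ^ (l + 4) := by
        have := lt2 l
        rw [pow_add]; omega
      have g3 : 2 ^ (l + 4) + 2 ^ (l + 4) = 2 ^ (l + 5) := by
        rw [pow_add, pow_add]; omega
      have g4 : 2 ^ (l + 5) ≤ 2 ^ (q - 2) := Nat.pow_le_pow_right (by norm_num) (by omega)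
      omega
    have pC : 2 * 2 ^ b * (S + 1) ^ (r + 4) / 2 ^ W ≤ 1 / 2 ^ (T + 3) := by
      refine dd (a := 1 + (b + (b + 1) * (r + 4))) ?_ (by omega)
      rw [pow_add (2 : ℝ) 1, pow_add (2 : ℝ) b, pow_one, mul_assoc]
      gcongr
    have hTT : (T : ℝ) + 5 ≤ 2 ^ (r + 4) := by
      have : T + 5 ≤ 2 ^ (r + 4) := by
        have h5 : 2 ^ (r + 4) = 2 * 2 ^ (r + 3) := by rw [pow_succ]; ring
        have h6 : 2 ^ (r + 3) = 8 * 2 ^ r := by rw [pow_add]; ring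
        have := lt2 r
        omega
      exact_mod_cast this
    have pD : 4 * Real.exp (-(2 ^ n * (R / 2 ^ l) ^ 2 / 4)) ≤ 1 / 2 ^ (T + 3) := by
      have g1 : ((T + 5 : ℕ) : ℝ) ≤ 2 ^ n * (R / 2 ^ l) ^ 2 / 4 := by
        have h1 : (1 : ℝ) / 2 ^ l ≤ R / 2 ^ l := by
          have : (1 : ℝ) ≤ R := by exact_mod_cast hR1
          gcongr
        have h2 : (2 : ℝ) ^ (r + 4) * (4 * (2 ^ l) ^ 2) ≤ 2 ^ n := by
          have : (2 : ℝ) ^ (r + 4) * (4 * (2 ^ l) ^ 2) = 2 ^ (r + 4 + (2 + l * 2)) := by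
            rw [pow_add (2 : ℝ) (r + 4), pow_add (2 : ℝ) 2, pow_mul]; norm_num
          rw [this]
          exact pow_le_pow_right₀ (by norm_num) (by omega)
        have h3 : (2 : ℝ) ^ (r + 4) ≤ 2 ^ n * (1 / 2 ^ l) ^ 2 / 4 := by
          rw [div_pow, one_pow, mul_one_div, div_div, le_div_iff₀ (by positivity)]
          linarith [h2]
        push_cast
        calc (T : ℝ) + 5 ≤ 2 ^ (r + 4) := hTT
          _ ≤ 2 ^ n * (1 / 2 ^ l) ^ 2 / 4 := h3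
          _ ≤ 2 ^ n * (R / 2 ^ l) ^ 2 / 4 := by gcongr
      have g2 := exq g1
      have g3 : (1 : ℝ) / 2 ^ (T + 5) = 1 / 2 ^ (T + 3) / 4 := by
        rw [pow_add, pow_add]; field_simp; norm_num
      rw [g3] at g2
      linarith
    have pE : Real.exp (-(2 ^ l / 2)) ≤ 1 / 2 ^ (T + 3) := by
      refine exq ?_
      push_cast
      have h1 : (2 : ℝ) ^ (r + 4) * 2 ≤ 2 ^ l := by
        rw [← pow_succ]
        exact pow_le_pow_right₀ (by norm_num) (by omega)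
      linarith
    have hfin : (1 : ℝ) / 2 ^ (T + 3) = 1 / 2 ^ T / 8 := by
      rw [pow_add]; field_simp; norm_num
    have h0 : (0 : ℝ) ≤ 1 / 2 ^ T := by positivity
    rw [hfin] at pA pB pC pD pE
    have e9 : 8 * (2 ^ (2 * l) * (4 * ((128 * w) ^ (2 * (r + 4)) *
        ((2 * 2 ^ q) ^ 2 * 2 ^ b * (S + 1) ^ (r + 4) / 2 ^ W) + 1 / 2 ^ 2 ^ (q - 2)))) ≤
        1 / 2 ^ T / 8 + 1 / 2 ^ T / 8 := by
      have e8 : 8 * (2 ^ (2 * l) * (4 * ((128 * w) ^ (2 * (r + 4)) *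
        ((2 * 2 ^ q) ^ 2 * 2 ^ b * (S + 1) ^ (r + 4) / 2 ^ W) + 1 / 2 ^ 2 ^ (q - 2)))) ≤
        8 * (2 ^ (2 * l) * (4 * ((128 * w) ^ (2 * (r + 4)) *
        ((2 * 2 ^ q) ^ 2 * 2 ^ b * (S + 1) ^ (r + 4) / 2 ^ W)))) +
        8 * (2 ^ (2 * l) * (4 * (1 / 2 ^ 2 ^ (q - 2)))) := by
        have : (0 : ℝ) ≤ 1 / 2 ^ 2 ^ (q - 2) := by positivity
        have h7 : (0 : ℝ) ≤ 2 ^ (2 * l) * (1 / 2 ^ 2 ^ (q - 2)) := by positivity
        nlinarith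
      linarith
    linarith

end Pool.Agent.H13.XX
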